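import Pool.Agent.H44.SO.Basic

/-!
# Several orbits of vertices: generic placement
-/

set_option autoImplicit false

namespace Pool.Agent.H37.SO.GEN

open Pool.Agent.H44.SO Pool.Agent.H57.SO Pool.Agent.H68.BP Pool.Agent.H58.SF Pool.Agent.H53.GC
open Pool.Agent.H53.NR Function
open Pool.Agent.H57.EQ (Cx Tour)

theorem pf_GEN (hS : T_SYN) : T_GEN := by
  intro σ V S X _ P 𝔸 M c hs I W _ _ rk hrk G
  classical
  have hc := hs.col
  let W' : Type := Σ i : I, Set.range (G i)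
  have hfin1 : ∀ i, Finite (Set.range (G i)) := fun i => Set.finite_range (G i)
  have hfin : Finite W' := inferInstance
  let rk' : W' → ℕ ×ₗ V := fun w => toLex (rk w.1, w.2.1)
  let u : W' → V := fun w => w.2.1
  have hinj : Injective rk' := by
    rintro ⟨i, v, hv⟩ ⟨j, v', hv'⟩ h
    have h1 : (rk i, v) = (rk j, v') := toLex.injective h
    have h2 : i = j := hrk (congrArg Prod.fst h1)
    have h3 : v = v' := congrArg Prod.snd h1
    subst h2
    subst h3
    rfl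
  obtain ⟨f, hf1, hf2, hf3⟩ := hS σ V S X P 𝔸 M c hs W' (ℕ ×ₗ V) rk' u
    (fun w w' => w.1 = w'.1) hinj (fun _ _ h => h.symm)
  refine ⟨fun i w => f ⟨i, G i w, w, rfl⟩, fun i a b => ⟨?_, ?_⟩, fun a b i j hij => ?_⟩
  · show c (f ⟨i, G i a, a, rfl⟩) (f ⟨i, G i b, b, rfl⟩) = c (G i a) (G i b)
    by_cases hab : G i a = G i b
    · have h1 : (⟨i, G i a, a, rfl⟩ : W') = ⟨i, G i b, b, rfl⟩ := by
        have h3 : (⟨G i a, a, rfl⟩ : Set.range (G i)) = ⟨G i b, b, rfl⟩ := Subtype.ext hab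
        exact congrArg (Sigma.mk i) h3
      rw [h1, hab]
      exact hf2 _
    · have h1 : (⟨i, G i a, a, rfl⟩ : W') ≠ ⟨i, G i b, b, rfl⟩ := fun h =>
        hab (congrArg u h)
      exact (hf3 _ _ h1).1 rfl hab
  · show f ⟨i, G i a, a, rfl⟩ < f ⟨i, G i b, b, rfl⟩ ↔ _
    rw [hf1]
    show toLex (rk i, G i a) < toLex (rk i, G i b) ↔ _
    rw [Prod.Lex.toLex_lt_toLex]
    simp
  · have hne : i ≠ j := fun h => by
      subst h
      exact lt_irrefl _ hij
    have h1 : (⟨i, G i a, a, rfl⟩ : W') ≠ ⟨j, G j b, b, rfl⟩ := fun h =>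
      hne (congrArg Sigma.fst h)
    have h2 := (hf3 _ _ h1).2 (fun h => hne h.1)
    have h4 : ∀ w : W', vt P c (f w) = vt P c (u w) := fun w => by
      rw [Col.vt_iff hc, hf2 w]
      exact Col.vt hc _
    refine ⟨?_, ?_⟩
    · show f ⟨i, G i a, a, rfl⟩ < f ⟨j, G j b, b, rfl⟩
      rw [hf1]
      show toLex (rk i, G i a) < toLex (rk j, G j b)
      rw [Prod.Lex.toLex_lt_toLex]
      exact Or.inl hij
    · show c (f ⟨i, G i a, a, rfl⟩) (f ⟨j, G j b, b, rfl⟩) = Sum.inr (P.fr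
        (vt P c (f ⟨i, G i a, a, rfl⟩)) (vt P c (f ⟨j, G j b, b, rfl⟩)))
      rw [h4, h4]
      exact h2

end Pool.Agent.H37.SO.GEN
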