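import Pool.Agent.H44.SO.Basic

/-!
# Several orbits of vertices: tuples in arbitrary orders
-/

set_option autoImplicit false

namespace Pool.Agent.H37.SO.ORD

open Pool.Agent.H44.SO Pool.Agent.H57.SO Pool.Agent.H68.BP Pool.Agent.H58.SF Pool.Agent.H53.GC
open Pool.Agent.H53.NR Function
open Pool.Agent.H57.EQ (Cx Tour)

theorem pf_ORD (hS : T_SYN) : T_ORD := by
  intro σ V S X _ P 𝔸 M c hs W _ x rk hrk
  classical
  have hfin : Finite (Set.range x) := Set.finite_range x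
  let rk' : Set.range x → ℕ := fun v => rk v.2.choose
  have hrk' : ∀ a, rk' ⟨x a, a, rfl⟩ = rk a := by
    intro a
    have h1 : x (Exists.choose (⟨a, rfl⟩ : ∃ b, x b = x a)) = x a :=
      Exists.choose_spec (⟨a, rfl⟩ : ∃ b, x b = x a)
    exact (hrk _ _).2 h1
  have hinj : Injective rk' := by
    rintro ⟨_, a, rfl⟩ ⟨_, b, rfl⟩ h
    rw [hrk' a, hrk' b] at h
    exact Subtype.ext ((hrk a b).1 h)
  obtain ⟨f, hf1, hf2, hf3⟩ := hS σ V S X P 𝔸 M c hs (Set.range x) ℕ rk' Subtype.val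
    (fun _ _ => True) hinj (fun _ _ _ => trivial)
  refine ⟨fun a => f ⟨x a, a, rfl⟩, fun a b => ?_, fun a b => ?_⟩
  · by_cases hab : x a = x b
    · have h1 : (⟨x a, a, rfl⟩ : Set.range x) = ⟨x b, b, rfl⟩ := Subtype.ext hab
      have h2 := hf2 ⟨x b, b, rfl⟩
      show c (f ⟨x a, a, rfl⟩) (f ⟨x b, b, rfl⟩) = c (x a) (x b)
      rw [h1, hab]
      exact h2
    · have h1 : (⟨x a, a, rfl⟩ : Set.range x) ≠ ⟨x b, b, rfl⟩ := fun h =>
        hab (congrArg Subtype.val h)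
      exact (hf3 _ _ h1).1 trivial hab
  · have h1 := hf1 ⟨x a, a, rfl⟩ ⟨x b, b, rfl⟩
    rw [hrk' a, hrk' b] at h1
    exact h1

end Pool.Agent.H37.SO.ORD
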