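import Pool.Agent.H58.SO.Basic

/-!
# Several orbits of vertices: tuples in arbitrary orders
-/

set_option autoImplicit false

namespace Pool.Agent.H37.SO

open Pool.Agent.H68.BP Pool.Agent.H58.SF Pool.Agent.H53.GC Pool.Agent.H53.NR Pool.Agent.H58.SO

theorem pf_ORD (hSYS : T_SYS) : T_ORD := by
  intro V X Θ _ M B P R _ _ x rk hrk
  classical
  have hfin : Finite (Set.range rk) := Set.finite_range rk
  let u : Set.range rk → V := fun n => x n.2.choose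
  have hu : ∀ a, u ⟨rk a, a, rfl⟩ = x a := by
    intro a
    have h1 : rk (Exists.choose (⟨a, rfl⟩ : ∃ b, rk b = rk a)) = rk a :=
      Exists.choose_spec (⟨a, rfl⟩ : ∃ b, rk b = rk a)
    exact (hrk _ _).1 h1
  obtain ⟨e, he1, he2, he3⟩ := hSYS V X Θ M B (Set.range rk) u (fun _ _ => True)
    (fun _ _ _ => trivial)
  have hvt : ∀ a, B.vt (e ⟨rk a, a, rfl⟩) = B.vt (x a) := fun a => by
    rw [he2, hu]
  have hlt : ∀ a b, e ⟨rk a, a, rfl⟩ < e ⟨rk b, b, rfl⟩ ↔ rk a < rk b := fun a b => by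
    rw [he1.lt_iff_lt]
    rfl
  have heq : ∀ a b, e ⟨rk a, a, rfl⟩ = e ⟨rk b, b, rfl⟩ ↔ x a = x b := fun a b => by
    rw [he1.injective.eq_iff, ← hrk a b]
    exact Subtype.ext_iff
  refine ⟨fun a => e ⟨rk a, a, rfl⟩, ⟨hvt, fun a b _ _ => ⟨heq a b, ?_⟩⟩, hlt⟩
  by_cases hab : x a = x b
  · show B.c (e ⟨rk a, a, rfl⟩) (e ⟨rk b, b, rfl⟩) = B.c (x a) (x b)
    rw [(heq a b).2 hab, hab, B.diag, B.diag, hvt]
  · have h1 : (⟨rk a, a, rfl⟩ : Set.range rk) ≠ ⟨rk b, b, rfl⟩ := fun h =>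
      hab ((heq a b).1 (congrArg e h))
    have h2 := (he3 _ _ h1).1 ⟨trivial, by rw [hu, hu]; exact hab⟩
    rw [hu, hu] at h2
    exact h2

end Pool.Agent.H37.SO
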